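import Pool.Agent.MP_6a4325_al.H84.Spec3

/-! Comparison of the numerical functions of a representation and of its space of maps. -/

set_option autoImplicit false

namespace Pool.Agent.MP_6a4325_al.H14

open Pool.Agent.MP_6a4325_al.H62 Pool.Agent.MP_6a4325_al.H84 Module

namespace Homx

variable {k G T : Type} [Field k] [Group G] [AddCommGroup T] [Module k T]
  (τ : Representation k G T)

theorem ses_hom {M₁ M M₂ : Type} [AddCommGroup M₁] [Module k M₁] [AddCommGroup M] [Module k M]
    [AddCommGroup M₂] [Module k M₂] {ρ₁ : Representation k G M₁} {ρ : Representation k G M}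
    {ρ₂ : Representation k G M₂} (h : Ses ρ₁ ρ ρ₂) :
    Ses (τ.linHom ρ₁) (τ.linHom ρ) (τ.linHom ρ₂) := by
  obtain ⟨f, g, hf, hg, he, ef, eg⟩ := h
  refine ⟨LinearMap.llcomp k T M₁ M f, LinearMap.llcomp k T M M₂ g,
    fun u v e => LinearMap.ext fun x => hf (LinearMap.congr_fun e x),
    fun u => Module.projective_lifting_property g u hg, le_antisymm ?_ fun u hu => ?_,
    fun a u => LinearMap.ext fun x => ef a _, fun a u => LinearMap.ext fun x => eg a _⟩
  · rintro _ ⟨u, rfl⟩
    exact LinearMap.ext fun x => (he.le ⟨u x, rfl⟩ :)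
  · have hm : ∀ x, u x ∈ LinearMap.range f := fun x => he.ge (LinearMap.congr_fun hu x)
    refine ⟨(LinearEquiv.ofInjective f hf).symm.toLinearMap ∘ₗ u.codRestrict _ hm,
      LinearMap.ext fun x => ?_⟩
    exact congrArg Subtype.val ((LinearEquiv.ofInjective f hf).apply_symm_apply ⟨u x, hm x⟩)

theorem zero_of_sub {s : RepFun k G} (hs : AddF s) {M : Type} [AddCommGroup M] [Module k M]
    (ρ : Representation k G M) (h : Subsingleton M) : s M ρ = 0 := by
  have := hs M M M ρ ρ ρ inferInstance ⟨LinearMap.id, LinearMap.id, Function.injective_id,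
    Function.surjective_id, Subsingleton.elim _ _, fun _ _ => rfl, fun _ _ => rfl⟩
  omega

theorem le_mul {S : Type} [AddCommGroup S] [Module k S] [FiniteDimensional k T]
    [FiniteDimensional k S] {σ : Representation k G S} (hτ : Irr τ) {U : Submodule k (T →ₗ[k] S)}
    (h : H62.Inv (τ.linHom σ) U) (hU : Nontrivial U) :
    finrank k T ≤ finrank k U * finrank k S := by
  have hi : H62.Inv τ (LinearMap.ker U.subtype.flip) := fun g w hw => LinearMap.ext fun u => by
    have e : σ g⁻¹ (u.1 (τ g⁻¹⁻¹ w)) = 0 := LinearMap.congr_fun hw ⟨_, h g⁻¹ u.1 u.2⟩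
    rw [inv_inv] at e
    have := congrArg (σ g) e
    rwa [Representation.self_inv_apply, map_zero] at this
  rw [← finrank_linearMap k k]
  refine LinearMap.finrank_le_finrank_of_injective (f := U.subtype.flip)
    (LinearMap.ker_eq_bot.1 ((hτ.2 _ hi).resolve_right fun e => ?_))
  obtain ⟨u, hu⟩ := exists_ne (0 : U)
  exact hu (Subtype.ext (LinearMap.ext fun w =>
    LinearMap.congr_fun (LinearMap.mem_ker.1 (e.ge (Submodule.mem_top (x := w)))) u))

end Homx

open Homx in
theorem homX : SMin → SIndP → SHomX := by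
  intro hM hI k G T _ _ _ _ τ D s s' hT hτ hs h1 hs' h2
  refine hI k G (fun M _ _ ρ => finrank k T * s M ρ ≤ D ^ 2 * s' (T →ₗ[k] M) (τ.linHom ρ))
    (fun M _ _ ρ h => by rw [zero_of_sub hs ρ h]; exact Nat.zero_le _) (fun S _ _ σ hS hσ => ?_)
    fun M₁ M M₂ _ _ _ _ _ _ ρ₁ ρ ρ₂ hf h a b => ?_
  · by_cases hD : finrank k S ≤ D
    · have := hτ.1
      have := hσ.1
      have hn : Nontrivial (T →ₗ[k] S) := finrank_pos_iff.1 (by
        rw [finrank_linearMap k k]
        exact Nat.mul_pos finrank_pos finrank_pos : 0 < finrank k (T →ₗ[k] S))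
      obtain ⟨U, hU, hi, hq⟩ := hM k G _ (τ.linHom σ) inferInstance hn
      have a1 := (le_mul τ hτ hU hi.1).trans (Nat.mul_le_mul_left _ hD)
      have a2 : finrank k U ≤ finrank k T * D :=
        (U.finrank_le.trans_eq (finrank_linearMap k k T S)).trans (Nat.mul_le_mul_left _ hD)
      rw [(h1 S σ hS hσ).1 hD, hs' _ _ _ _ _ _ inferInstance hq,
        (h2 U _ inferInstance hi).1 ⟨a1, a2⟩]
      calc _ ≤ finrank k U * D * D := Nat.mul_le_mul a1 hD
        _ = D ^ 2 * finrank k U := by ring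
        _ ≤ _ := Nat.mul_le_mul_left _ (Nat.le_add_right _ _)
    · rw [(h1 S σ hS hσ).2 hD]
      exact Nat.zero_le _
  · rw [hs _ _ _ _ _ _ hf h, hs' _ _ _ _ _ _ inferInstance (ses_hom τ h), mul_add, mul_add]
    exact add_le_add a b

end Pool.Agent.MP_6a4325_al.H14
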