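import Pool.Agent.MP_6a4325_al.H62.Base2

/-!
Row NIL: groups of class two with the property `W` whose commutators have bounded order prime
to `p` are abelian-by-finite.
-/

set_option autoImplicit false

namespace Pool.Agent.MP_6a4325_al.H14

open Pool.Agent.MP_6a4325_al.H62

variable {D : Type} [Group D]

/-- all commutators are central -/
def C2 (D : Type) [Group D] : Prop :=
  ∀ x y z : D, x * y * x⁻¹ * y⁻¹ * z = z * (x * y * x⁻¹ * y⁻¹)

theorem C2.mem (h : C2 D) (x y : D) : x * y * x⁻¹ * y⁻¹ ∈ Subgroup.center D :=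
  Subgroup.mem_center_iff.2 fun z => (h x y z).symm

/-- the commutator with a fixed element as a homomorphism into the centre -/
def C2.hom (h : C2 D) (g : D) : D →* Subgroup.center D where
  toFun b := ⟨g * b * g⁻¹ * b⁻¹, h.mem g b⟩
  map_one' := Subtype.ext (by simp)
  map_mul' a b := Subtype.ext (by
    have h1 := h g b a⁻¹
    change g * (a * b) * g⁻¹ * (a * b)⁻¹ = g * a * g⁻¹ * a⁻¹ * (g * b * g⁻¹ * b⁻¹)
    calc g * (a * b) * g⁻¹ * (a * b)⁻¹
        = g * a * g⁻¹ * (g * b * g⁻¹ * b⁻¹ * a⁻¹) := by group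
      _ = g * a * g⁻¹ * a⁻¹ * (g * b * g⁻¹ * b⁻¹) := by rw [h1]; group)

theorem C2.hom_apply (h : C2 D) (g b : D) : (h.hom g b : D) = g * b * g⁻¹ * b⁻¹ := rfl

theorem C2.ker_hom (h : C2 D) (g : D) : (h.hom g).ker = Subgroup.centralizer {g} := by
  ext b
  rw [MonoidHom.mem_ker, Subgroup.mem_centralizer_singleton_iff, Subtype.ext_iff, h.hom_apply]
  change _ = 1 ↔ _
  rw [mul_inv_eq_one, mul_inv_eq_iff_eq_mul, eq_comm]

theorem C2.of_inj {H : Type} [Group H] (h : C2 D) (f : H →* D) (hf : Function.Injective f) :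
    C2 H := fun x y z => hf (by simp only [map_mul, map_inv]; exact h _ _ _)

theorem C2.of_surj {H : Type} [Group H] (h : C2 D) (f : D →* H) (hf : Function.Surjective f) :
    C2 H := fun x y z => by
  obtain ⟨x, rfl⟩ := hf x
  obtain ⟨y, rfl⟩ := hf y
  obtain ⟨z, rfl⟩ := hf z
  simpa only [map_mul, map_inv] using congrArg f (h x y z)

theorem C2.normal (h : C2 D) {B : Subgroup D} (hB : Subgroup.center D ≤ B) : B.Normal :=
  ⟨fun b hb g => by
    have := B.mul_mem (hB (h.mem g b)) hb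
    rwa [inv_mul_cancel_right] at this⟩

/-- the elements whose centralisers have finite index -/
def fcs (D : Type) [Group D] : Subgroup D where
  carrier := {g | (Subgroup.centralizer {g}).FiniteIndex}
  one_mem' := by
    have : Subgroup.centralizer ({1} : Set D) = ⊤ :=
      top_le_iff.1 fun x _ => Subgroup.mem_centralizer_singleton_iff.2 (by simp)
    change (Subgroup.centralizer ({1} : Set D)).FiniteIndex
    rw [this]; infer_instance
  mul_mem' := fun {a b} ha hb => by
    have h1 : (Subgroup.centralizer {a}).FiniteIndex := ha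
    have h2 : (Subgroup.centralizer {b}).FiniteIndex := hb
    refine Subgroup.finiteIndex_of_le
      (H := Subgroup.centralizer {a} ⊓ Subgroup.centralizer {b}) fun x hx => ?_
    have h3 : Commute x a := Subgroup.mem_centralizer_singleton_iff.1 hx.1
    have h4 : Commute x b := Subgroup.mem_centralizer_singleton_iff.1 hx.2
    exact Subgroup.mem_centralizer_singleton_iff.2 (h3.mul_right h4)
  inv_mem' := fun {a} ha => by
    have h1 : (Subgroup.centralizer {a}).FiniteIndex := ha
    refine Subgroup.finiteIndex_of_le (H := Subgroup.centralizer {a}) fun x hx => ?_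
    have h3 : Commute x a := Subgroup.mem_centralizer_singleton_iff.1 hx
    exact Subgroup.mem_centralizer_singleton_iff.2 h3.inv_right

theorem center_fi (hfc : ∀ g : D, (Subgroup.centralizer {g}).FiniteIndex) (h : VA D) :
    (Subgroup.center D).FiniteIndex := by
  obtain ⟨A, -, hA, hc⟩ := h
  have h1 : (⨅ q : D ⧸ A, Subgroup.centralizer ({q.out} : Set D)).FiniteIndex :=
    Subgroup.finiteIndex_iInf fun q => hfc _
  refine Subgroup.finiteIndex_of_le
    (H := A ⊓ ⨅ q : D ⧸ A, Subgroup.centralizer ({q.out} : Set D)) fun x hx => ?_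
  refine Subgroup.mem_center_iff.2 fun g => ?_
  obtain ⟨a, ha⟩ := QuotientGroup.mk_out_eq_mul A g
  have h2 : Commute x (g : D ⧸ A).out :=
    Subgroup.mem_centralizer_singleton_iff.1 (Subgroup.mem_iInf.1 hx.2 _)
  have h3 : Commute x (a : D) := hc x hx.1 a a.2
  have h4 := h2.mul_right h3.inv_right
  rw [ha, mul_inv_cancel_right] at h4
  exact h4.symm

theorem fc_case (hCL : SCLt) (hALT : SALT) (p : ℕ) [Fact p.Prime] (D : Type) [Group D]
    (hW : W (ZMod p) D) (h2 : C2 D) (e : ℕ) (he : 0 < e) (hp : e.Coprime p)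
    (hpw : ∀ x y : D, (x * y * x⁻¹ * y⁻¹) ^ e = 1)
    (hfc : ∀ g : D, (Subgroup.centralizer {g}).FiniteIndex) : VA D := by
  classical
  by_contra hv
  have hex : ∀ s : Finset (D × D), (∀ q ∈ s, ¬ Commute q.1 q.2) → ∃ r : D × D,
      ¬ Commute r.1 r.2 ∧ ∀ q ∈ s,
        Commute q.1 r.1 ∧ Commute q.1 r.2 ∧ Commute q.2 r.1 ∧ Commute q.2 r.2 := fun s _ => by
    let C : Subgroup D :=
      ⨅ q ∈ s, (Subgroup.centralizer ({q.1} : Set D) ⊓ Subgroup.centralizer ({q.2} : Set D))
    have hC : C.FiniteIndex := Subgroup.finiteIndex_iInf' _ fun q _ => by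
      have := hfc q.1
      have := hfc q.2
      infer_instance
    have hm : ∀ x ∈ C, ∀ q ∈ s, Commute q.1 x ∧ Commute q.2 x := fun x hx q hq => by
      have h3 := Subgroup.mem_iInf.1 (Subgroup.mem_iInf.1 hx q) hq
      exact ⟨(Subgroup.mem_centralizer_singleton_iff.1 h3.1).symm,
        (Subgroup.mem_centralizer_singleton_iff.1 h3.2).symm⟩
    by_contra hn
    refine hv (VA.of_comm C hC fun a ha b hb => ?_)
    by_contra hab
    exact hn ⟨(a, b), hab, fun q hq =>
      ⟨(hm a ha q hq).1, (hm b hb q hq).1, (hm a ha q hq).2, (hm b hb q hq).2⟩⟩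
  obtain ⟨f, hf1, hf2⟩ := exists_seq_of_forall_finset_exists (fun q : D × D => ¬ Commute q.1 q.2)
    (fun q r => Commute q.1 r.1 ∧ Commute q.1 r.2 ∧ Commute q.2 r.1 ∧ Commute q.2 r.2) hex
  have hxx : ∀ i j, Commute (f i).1 (f j).1 := fun i j => by
    rcases lt_trichotomy i j with h | h | h
    · exact (hf2 i j h).1
    · rw [h]
    · exact (hf2 j i h).1.symm
  have hxy : ∀ i j, i ≠ j → Commute (f i).1 (f j).2 := fun i j h => by
    rcases lt_or_gt_of_ne h with h | h
    · exact (hf2 i j h).2.1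
    · exact (hf2 j i h).2.2.1.symm
  let S : Set D := Set.range (fun i => (f i).1) ∪ Subgroup.center D
  have hS : ∀ a ∈ S, ∀ b ∈ S, a * b = b * a := by
    rintro a (⟨i, rfl⟩ | ha) b (⟨j, rfl⟩ | hb)
    · exact hxx i j
    · exact Subgroup.mem_center_iff.1 hb _
    · exact (Subgroup.mem_center_iff.1 ha _).symm
    · exact Subgroup.mem_center_iff.1 hb _
  let B : Subgroup D := Subgroup.closure S
  have hB : Cm B B := fun a ha b hb => by
    have h3 : B ≤ Subgroup.centralizer S := (Subgroup.closure_le _).2 fun x hx y hy => hS y hy x hx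
    have h4 : B ≤ Subgroup.centralizer (B : Set D) :=
      (Subgroup.closure_le _).2 fun x hx y hy => (h3 hy x hx).symm
    exact h4 hb a ha
  have hBn : B.Normal := h2.normal fun z hz => Subgroup.subset_closure (Or.inr hz)
  obtain ⟨N, B₀, hN, -, hrel, hcm⟩ := hALT p D B ⊤ hBn hB (hCL p D hW B hBn hB) inferInstance
    fun g _ b _ => ⟨e, he, hp, hpw g b⟩
  have hfi : (B₀.subgroupOf B).FiniteIndex := ⟨hrel⟩
  let x : ℕ → B := fun i => ⟨(f i).1, Subgroup.subset_closure (Or.inl ⟨i, rfl⟩)⟩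
  let φ : ℕ → (B ⧸ B₀.subgroupOf B) × (D ⧸ N) := fun i => (x i, (f i).2)
  obtain ⟨c, hc⟩ := Finite.exists_infinite_fiber φ
  let t := Infinite.natEmbedding (φ ⁻¹' {c})
  have ht : ∀ a b, a ≠ b → (t a : ℕ) ≠ t b := fun a b h e => h (t.injective (Subtype.ext e))
  have hφ : ∀ a b, φ (t a) = φ (t b) := fun a b => (t a).2.trans (t b).2.symm
  have h5 : ((f (t 0)).1)⁻¹ * (f (t 1)).1 ∈ B₀ :=
    (QuotientGroup.eq (s := B₀.subgroupOf B)).1 (congrArg Prod.fst (hφ 0 1))
  have h6 : ((f (t 1)).2)⁻¹ * (f (t 2)).2 ∈ N := QuotientGroup.eq.1 (congrArg Prod.snd (hφ 1 2))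
  have h7 : Commute _ _ := hcm _ h5 _ h6
  have h8 := ((hxy _ _ (ht 0 1 (by decide))).inv_right.mul_right
    (hxy _ _ (ht 0 2 (by decide)))).mul_left h7
  rw [mul_inv_cancel_left] at h8
  have h9 := (hxy _ _ (ht 1 2 (by decide))).mul_right h8.inv_right
  rw [mul_inv_rev, inv_inv, mul_inv_cancel_left] at h9
  exact hf1 _ h9

theorem nil2 : SCh → SCLt → SALT → SNil2 := by
  intro hCh hCL hALT p _ D _ hW h2 e he hp hpw
  have h2 : C2 D := h2
  by_cases hΔ : (fcs D).FiniteIndex
  · refine VA.of_finiteIndex _ hΔ (fc_case hCL hALT p _ (hW.sub _)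
      (h2.of_inj _ (fcs D).subtype_injective) e he hp (fun x y => Subtype.ext (hpw x y))
      fun g => ?_)
    have := finiteIndex_comap _ g.2 (fcs D).subtype
    refine Subgroup.finiteIndex_of_le
      (H := (Subgroup.centralizer {(g : D)}).comap (fcs D).subtype) fun x hx => ?_
    exact Subgroup.mem_centralizer_singleton_iff.2
      (Subtype.ext (Subgroup.mem_centralizer_singleton_iff.1 hx))
  exfalso
  have hinf : Infinite (D ⧸ fcs D) := not_finite_iff_infinite.1 fun _ =>
    hΔ (Subgroup.finiteIndex_of_finite_quotient)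
  let t := Infinite.natEmbedding (D ⧸ fcs D)
  let g : ℕ → D := fun i => (t i).out
  have hg : ∀ i j, i ≠ j → (g i)⁻¹ * g j ∉ fcs D := fun i j h e => h (t.injective (by
    have := QuotientGroup.eq.2 e
    simpa only [g, QuotientGroup.out_eq'] using this))
  let u : ℕ → D := fun n => (g n.unpair.1)⁻¹ * g (n.unpair.1 + n.unpair.2 + 1)
  have hZ : Cm (Subgroup.center D) (Subgroup.center D) := fun a _ b hb =>
    Subgroup.mem_center_iff.1 hb a
  let _i := hZ.commGroup
  obtain ⟨ψ, -, hψ⟩ := (hCh p (Kp p)).one (Subgroup.center D) ⊥ (fun n => (h2.hom (u n)).range)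
    (by
      rintro n _ ⟨b, rfl⟩
      exact ⟨e, he, hp, Subtype.ext (hpw _ _)⟩)
    fun n => by
      rw [Subgroup.relIndex_bot_left, ← Subgroup.index_ker, h2.ker_hom]
      by_contra h
      exact hg _ _ (by omega) (⟨h⟩ : (Subgroup.centralizer {u n}).FiniteIndex)
  let R : Subgroup D := ψ.ker.map (Subgroup.center D).subtype
  have hRn : R.Normal := ⟨by
    rintro _ ⟨z, hz, rfl⟩ a
    have h3 : a * (z : D) * a⁻¹ = z := by
      rw [Subgroup.mem_center_iff.1 z.2 a, mul_inv_cancel_right]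
    exact ⟨z, hz, h3.symm⟩⟩
  have hmem : ∀ a b : D, Commute (a : D ⧸ R) (b : D ⧸ R) ↔ ψ (h2.hom a b) = 1 := fun a b => by
    rw [← commutatorElement_eq_one_iff_commute, commutatorElement_def, ← QuotientGroup.mk_inv,
      ← QuotientGroup.mk_inv, ← QuotientGroup.mk_mul, ← QuotientGroup.mk_mul,
      ← QuotientGroup.mk_mul, QuotientGroup.eq_one_iff]
    constructor
    · rintro ⟨z, hz, hz'⟩
      have : z = h2.hom a b := Subtype.ext hz'
      rw [← this]; exact hz
    · exact fun h => ⟨_, h, rfl⟩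
  have hfc : ∀ a : D ⧸ R, (Subgroup.centralizer {a}).FiniteIndex := fun a => by
    obtain ⟨a, rfl⟩ := QuotientGroup.mk_surjective a
    have : NeZero e := ⟨he.ne'⟩
    have hle : (ψ.comp (h2.hom a)).range ≤ rootsOfUnity e (Kp p) := by
      rintro _ ⟨b, rfl⟩
      have h3 : h2.hom a b ^ e = 1 := Subtype.ext (hpw _ _)
      rw [mem_rootsOfUnity, MonoidHom.comp_apply, ← map_pow, h3, map_one]
    have : Finite (ψ.comp (h2.hom a)).range :=
      Finite.of_injective _ (Subgroup.inclusion_injective hle)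
    have := finiteIndex_map (ψ.comp (h2.hom a)).ker inferInstance (QuotientGroup.mk' R)
      (QuotientGroup.mk'_surjective R)
    refine Subgroup.finiteIndex_of_le
      (H := (ψ.comp (h2.hom a)).ker.map (QuotientGroup.mk' R)) ?_
    rintro _ ⟨b, hb, rfl⟩
    exact Subgroup.mem_centralizer_singleton_iff.2 ((hmem a b).2 hb).symm
  have hva := fc_case hCL hALT p (D ⧸ R) (hW.quot R)
    (h2.of_surj _ (QuotientGroup.mk'_surjective R)) e he hp (fun x y => by
      obtain ⟨x, rfl⟩ := QuotientGroup.mk'_surjective R x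
      obtain ⟨y, rfl⟩ := QuotientGroup.mk'_surjective R y
      simpa only [map_mul, map_inv, map_pow, map_one] using
        congrArg (QuotientGroup.mk' R) (hpw x y)) hfc
  have hz := center_fi hfc hva
  obtain ⟨i, j, hij, hq⟩ := Set.Finite.exists_lt_map_eq_of_forall_mem
    (f := fun i => ((g i : D ⧸ R) : (D ⧸ R) ⧸ Subgroup.center (D ⧸ R)))
    (fun _ => Set.mem_univ _) Set.finite_univ
  have h3 := QuotientGroup.eq.1 hq
  obtain ⟨_, ⟨b, rfl⟩, hb⟩ := hψ (Nat.pair i (j - i - 1))
  have h4 : u (Nat.pair i (j - i - 1)) = (g i)⁻¹ * g j := by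
    simp only [u, Nat.unpair_pair]
    rw [show i + (j - i - 1) + 1 = j by omega]
  rw [h4] at hb
  exact hb ((hmem _ _).1 (Subgroup.mem_center_iff.1 h3 _).symm)

end Pool.Agent.MP_6a4325_al.H14
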